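import Pool.Agent.H28.LF.F1
import Pool.Agent.H14.MCL.LDB
import Pool.Agent.H18.MR.Block

/-!
Project LF, row YRL: the relation along the primes.
-/

set_option autoImplicit false

open MeasureTheory ProbabilityTheory Filter Topology Finset
open scoped Nat ENNReal

namespace Pool.Agent.H88.LF

open Pool.Agent.H28.LF
open Pool.Agent.H24.MR (lam FinAddInv)
open Pool.Agent.H28.MCL (ldB Aw)

theorem shY_iter (k : ℕ) (ω : Yi) (t : ℤ) : (shY^[k] ω) t = ω (t + k) := by
  induction k generalizing t with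
  | zero => simp
  | succ k ih =>
    rw [Function.iterate_succ_apply']
    show (shY^[k] ω) (t + 1) = _
    rw [ih]
    congr 1
    push_cast
    ring

theorem lam_prime_mul {p m : ℕ} (hp : p.Prime) (hm : m ≠ 0) : lam (p * m) = -lam m := by
  unfold lam
  rw [ArithmeticFunction.cardFactors_mul hp.ne_zero hm,
    ArithmeticFunction.cardFactors_apply_prime hp, pow_add]
  ring

theorem lam_cases (m : ℕ) : lam m = 1 ∨ lam m = -1 := by
  unfold lam
  exact neg_one_pow_eq_or ℝ _

theorem lt_prime_mul {p m : ℕ} (hp : p.Prime) (hm : m ≠ 0) (hpm : ¬ p ∣ m) :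
    lt (p * m) = ng (lt m) := by
  unfold lt ng
  have h1 : ArithmeticFunction.moebius (p * m) = -ArithmeticFunction.moebius m := by
    rw [ArithmeticFunction.isMultiplicative_moebius.map_mul_of_coprime
      ((Nat.Prime.coprime_iff_not_dvd hp).2 hpm), ArithmeticFunction.moebius_apply_prime hp]
    ring
  rw [lam_prime_mul hp hm, h1]
  simp only [Prod.mk.injEq]
  refine ⟨?_, by simp⟩
  rcases lam_cases m with h | h
  · rw [h]; norm_num
  · rw [h]; norm_num

theorem ptS_zero {A : Type} (l : ℕ → A) (n : ℕ) : ptS l n 0 = l n := by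
  unfold ptS; simp

theorem ptS_nat {A : Type} (l : ℕ → A) (n k : ℕ) : ptS l n (k : ℤ) = l (n + k) := by
  unfold ptS
  congr 1

theorem clopen_flY (p : ℕ) : IsClopen (flY p) := by
  have h : flY p = (fun ω : Yi => (ω 0).2.1 p) ⁻¹' {true} := by
    ext ω; simp [flY]
  rw [h]
  exact (isClopen_discrete _).preimage (by fun_prop)

theorem clopen_ExY (p j : ℕ) : IsClopen (ExY p j) := by
  have h : ExY p j = (fun ω : Yi => ((ω ((p * j : ℕ) : ℤ)).1, ((ω 0).2.2 p j).1)) ⁻¹'
      {q : (Bool × Bool) × (Bool × Bool) | q.1 ≠ ng q.2} := by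
    ext ω
    unfold ExY
    simp only [Set.mem_ofPred_eq, Set.mem_preimage]
    unfold btY xiY
    rw [shY_iter, zero_add]
  rw [h]
  refine (isClopen_discrete _).preimage ?_
  fun_prop

/-- the set of numbers -/
theorem num_YRL {τ : ℕ → ℕ → Bool} {p j : ℕ} (hp : p.Prime) (hj : 0 < j) :
    {n | ptS (lY τ) n ∈ flY p ∩ ExY p j} ⊆ {n | p ^ 2 ∣ n + p * j} := by
  intro n hn
  obtain ⟨h1, h2⟩ := hn
  have h3 : p ∣ n := by
    have : (ptS (lY τ) n 0).2.1 p = true := h1
    rw [ptS_zero] at this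
    simpa [lY] using this
  obtain ⟨n', rfl⟩ := h3
  have h4 : lt (p * n' + p * j) ≠ ng (lt (n' + j)) := by
    have h5 : btY (shY^[p * j] (ptS (lY τ) (p * n'))) ≠ ng (xiY p (ptS (lY τ) (p * n')) j).1 := h2
    unfold btY xiY at h5
    rw [shY_iter, zero_add, ptS_nat, ptS_zero] at h5
    have h6 : (lY τ (p * n')).2.2 p = ptS (lX τ) n' := by
      unfold lY
      simp only
      rw [Nat.mul_div_cancel_left _ hp.pos]
    rw [h6, ptS_nat] at h5
    exact h5
  have h7 : p ∣ n' + j := by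
    by_contra h8
    apply h4
    rw [← Nat.mul_add]
    exact lt_prime_mul hp (by omega) h8
  show p ^ 2 ∣ p * n' + p * j
  rw [← Nat.mul_add, pow_two]
  exact Nat.mul_dvd_mul_left p h7

theorem pf_YRL : T_YRL := by
  intro U x y τ P hA hP p hp j hj
  have hF : FinAddInv (ldB U x y) := (Pool.Agent.H14.MCL.ldb U x y hA).1
  rw [hP.clo _ ((clopen_flY p).inter (clopen_ExY p j))]
  have h1 : ldB U x y {n | ptS (lY τ) n ∈ flY p ∩ ExY p j} ≤
      ldB U x y {n | p ^ 2 ∣ n + p * j} := Pool.Agent.H59.MR.fai_mono hF (num_YRL hp hj)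
  refine h1.trans (le_of_eq ?_)
  have hp2 : 0 < p ^ 2 := pow_pos hp.pos 2
  have h2 : {n | p ^ 2 ∣ n + p * j} = {n | n ≡ (p ^ 2 - 1) * (p * j) [MOD p ^ 2]} := by
    ext n
    simp only [Set.mem_ofPred_eq]
    have h3 : p * j + (p ^ 2 - 1) * (p * j) = p ^ 2 * (p * j) := by
      obtain ⟨q, hq⟩ : ∃ q, p ^ 2 = q + 1 := ⟨p ^ 2 - 1, by omega⟩
      rw [hq]
      simp only [Nat.add_sub_cancel]
      ring
    constructor
    · intro h
      have h4 : n + p * j ≡ (p ^ 2 - 1) * (p * j) + p * j [MOD p ^ 2] := by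
        rw [add_comm ((p ^ 2 - 1) * (p * j)), h3]
        exact ((Nat.modEq_zero_iff_dvd.2 h).trans
          (Nat.modEq_zero_iff_dvd.2 (Dvd.intro _ rfl)).symm)
      exact Nat.ModEq.add_right_cancel' _ h4
    · intro h
      have h4 : n + p * j ≡ (p ^ 2 - 1) * (p * j) + p * j [MOD p ^ 2] := h.add_right _
      rw [add_comm ((p ^ 2 - 1) * (p * j)), h3] at h4
      exact Nat.modEq_zero_iff_dvd.1 (h4.trans (Nat.modEq_zero_iff_dvd.2 (Dvd.intro _ rfl)))
  rw [h2, Pool.Agent.H18.MR.fai_modEq hF hp2]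
  push_cast
  rfl

end Pool.Agent.H88.LF
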